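import Pool.Agent.LCL89.Lcl.Defs
import Pool.Agent.LCL89.Hier.Stmt

set_option autoImplicit false

/-!
# The groups `K`, `G`, `Γ` and the space `Y`: definitions and statements
-/

namespace Pool.Agent.LCL89

open Monoid

/-- the valid codes of a tree -/
def Val : Tr → Set (List Bool)
  | Tr.leaf => {[false]}
  | Tr.node f => {σ | σ = [] ∨ ∃ j : ℕ, ∃ ρ ∈ Val (f j), σ = List.replicate j false ++ true :: ρ}

/-- no infinite chains of valid codes -/
def StmtValWf : Prop :=
  ∀ (T : Tr) (f : ℕ → List Bool), (∀ n, f n ∈ Val T) →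
    ¬ ∀ n, f n <+: f (n + 1) ∧ f n ≠ f (n + 1)

/-! ### the group `K` -/

/-- the set on which `K` acts -/
abbrev Pt : Type := ℚ × ZMod 4

/-- the position of a code -/
def qq : List Bool → ℚ
  | [] => 1
  | b :: σ => 2 * qq σ + (if b then 1 else 0)

/-- the permutation `s_b` -/
def sPerm (b : Bool) : Equiv.Perm Pt where
  toFun q := (2 * q.1 + (if b then 1 else 0), q.2)
  invFun q := ((q.1 - (if b then 1 else 0)) / 2, q.2)
  left_inv q := by
    refine Prod.ext ?_ rfl
    simp only
    ring
  right_inv q := by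
    refine Prod.ext ?_ rfl
    simp only
    ring

/-- the permutation `v` -/
def vPerm : Equiv.Perm Pt where
  toFun q := if q.1 = 1 then (q.1, -q.2) else q
  invFun q := if q.1 = 1 then (q.1, -q.2) else q
  left_inv q := by by_cases h : q.1 = 1 <;> simp [h, Prod.ext_iff]
  right_inv q := by by_cases h : q.1 = 1 <;> simp [h, Prod.ext_iff]

open Classical in
/-- the permutation `r`; `V` is the set of valid codes -/
noncomputable def rPerm (V : Set (List Bool)) : Equiv.Perm Pt where
  toFun q := if ∃ σ, σ ∉ V ∧ q.1 = qq σ then (q.1, 1 - q.2) else q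
  invFun q := if ∃ σ, σ ∉ V ∧ q.1 = qq σ then (q.1, 1 - q.2) else q
  left_inv q := by
    by_cases h : ∃ σ, σ ∉ V ∧ q.1 = qq σ
    · simp only [h, if_true, sub_sub_cancel]
    · simp only [h, if_false]
  right_inv q := by
    by_cases h : ∃ σ, σ ∉ V ∧ q.1 = qq σ
    · simp only [h, if_true, sub_sub_cancel]
    · simp only [h, if_false]

/-- the generators of `K` -/
def genK (V : Set (List Bool)) : Set (Equiv.Perm Pt) :=
  {rPerm V, vPerm, sPerm false, sPerm true}

/-- the group `K` -/
def KP (V : Set (List Bool)) : Type := Subgroup.closure (genK V)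

noncomputable instance (V : Set (List Bool)) : Group (KP V) :=
  inferInstanceAs (Group (Subgroup.closure (genK V)))

instance (V : Set (List Bool)) : TopologicalSpace (KP V) := ⊥

instance (V : Set (List Bool)) : DiscreteTopology (KP V) := ⟨rfl⟩

/-- the element of `K` as a permutation -/
def KP.perm {V : Set (List Bool)} (k : KP V) : Equiv.Perm Pt := k.1

noncomputable def KP.r (V : Set (List Bool)) : KP V :=
  ⟨rPerm V, Subgroup.subset_closure (by simp [genK])⟩

def KP.v (V : Set (List Bool)) : KP V :=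
  ⟨vPerm, Subgroup.subset_closure (by simp [genK])⟩

def KP.s (V : Set (List Bool)) (b : Bool) : KP V :=
  ⟨sPerm b, Subgroup.subset_closure (by cases b <;> simp [genK])⟩

/-- `K` is countable -/
def StmtKCountable : Prop := ∀ V : Set (List Bool), Countable (KP V)

/-- K1: for valid codes `r` commutes with `v_σ` -/
def StmtK1 : Prop :=
  ∀ (V : Set (List Bool)) (σ : List Bool), σ ∈ V →
    Commute (KP.r V) (wrd (KP.s V) σ * KP.v V * (wrd (KP.s V) σ)⁻¹)

/-- K2: for invalid codes `r`, `v_σ` generate a finite group acting on `ZMod 4` -/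
def StmtK2 : Prop :=
  ∀ (V : Set (List Bool)) (σ : List Bool), σ ∉ V →
    ∃ (Q : Type) (_ : Group Q) (_ : Finite Q) (j : Q →* KP V)
      (ρ : Q →* Equiv.Perm (ZMod 4)) (r' v' : Q), Function.Injective j ∧ j r' = KP.r V ∧
        j v' = wrd (KP.s V) σ * KP.v V * (wrd (KP.s V) σ)⁻¹ ∧ (∀ i, ρ r' i = 1 - i) ∧
        (∀ i, ρ v' i = -i)

/-! ### the group `G` and the space `Y` -/

/-- pairwise coprime odd numbers -/
def pp (k : ℕ) : ℕ := Nat.fermatNumber k

instance (k : ℕ) : NeZero (pp k) := ⟨Nat.succ_ne_zero _⟩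

/-- the space of the `ω`s -/
abbrev Om : Type := ℤ → (k : ℕ) → ZMod (pp k)

/-- the first factor of `Y`: `(ξ, k, δ, ω)` -/
abbrev Y1 (V : Set (List Bool)) : Type := ℤ × KP V × ℤ × Om

/-- the space `Y` -/
abbrev YY (V : Set (List Bool)) : Type := Y1 V × ZZ

/-- generator `x` -/
def gx (V : Set (List Bool)) : Equiv.Perm (Y1 V) where
  toFun y := (y.1 + 1, y.2.1, y.2.2.1, y.2.2.2)
  invFun y := (y.1 - 1, y.2.1, y.2.2.1, y.2.2.2)
  left_inv y := by simp
  right_inv y := by simp

/-- generator `t` -/
def gt (V : Set (List Bool)) : Equiv.Perm (Y1 V) where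
  toFun y := (y.1, y.2.1, y.2.2.1 - 1, y.2.2.2)
  invFun y := (y.1, y.2.1, y.2.2.1 + 1, y.2.2.2)
  left_inv y := by simp
  right_inv y := by simp

/-- adding `n` to all coordinates of `ω δ` -/
def addAt (δ : ℤ) (n : ℤ) (ω : Om) : Om :=
  fun i k => if i = δ then ω i k + (n : ZMod (pp k)) else ω i k

/-- generator `c` -/
def gc (V : Set (List Bool)) : Equiv.Perm (Y1 V) where
  toFun y := (y.1, y.2.1, y.2.2.1, addAt y.2.2.1 1 y.2.2.2)
  invFun y := (y.1, y.2.1, y.2.2.1, addAt y.2.2.1 (-1) y.2.2.2)
  left_inv y := by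
    refine Prod.ext rfl (Prod.ext rfl (Prod.ext rfl ?_))
    funext i k
    by_cases h : i = y.2.2.1 <;> simp [addAt, h]
  right_inv y := by
    refine Prod.ext rfl (Prod.ext rfl (Prod.ext rfl ?_))
    funext i k
    by_cases h : i = y.2.2.1 <;> simp [addAt, h]

/-- the embedding of `K` -/
noncomputable def gK (V : Set (List Bool)) : KP V →* Equiv.Perm (Y1 V) where
  toFun κ :=
    { toFun := fun y => (y.1, κ * y.2.1, y.2.2.1, y.2.2.2)
      invFun := fun y => (y.1, κ⁻¹ * y.2.1, y.2.2.1, y.2.2.2)
      left_inv := fun y => by simp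
      right_inv := fun y => by simp }
  map_one' := by ext1 y; simp
  map_mul' κ μ := by ext1 y; simp [mul_assoc]

/-- the generators of `G` -/
def genG (V : Set (List Bool)) : Set (Equiv.Perm (Y1 V)) :=
  {gx V, gt V, gc V, gK V (KP.r V), gK V (KP.v V), gK V (KP.s V false), gK V (KP.s V true)}

/-- the group `G` -/
def GP (V : Set (List Bool)) : Type := Subgroup.closure (genG V)

noncomputable instance (V : Set (List Bool)) : Group (GP V) :=
  inferInstanceAs (Group (Subgroup.closure (genG V)))

/-- the element of `G` as a permutation -/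
def GP.perm {V : Set (List Bool)} (g : GP V) : Equiv.Perm (Y1 V) := g.1

/-- the action of `G` on `Y` -/
noncomputable instance (V : Set (List Bool)) : MulAction (GP V) (YY V) where
  smul g y := (g.perm y.1, y.2)
  one_smul _ := rfl
  mul_smul _ _ _ := rfl

/-- the designated elements of `G` (the field `a` is a dummy) -/
noncomputable def eG (V : Set (List Bool)) : Elts (GP V) where
  a := 1
  x := ⟨gx V, Subgroup.subset_closure (by simp [genG])⟩
  c := ⟨gc V, Subgroup.subset_closure (by simp [genG])⟩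
  t := ⟨gt V, Subgroup.subset_closure (by simp [genG])⟩
  r := ⟨gK V (KP.r V), Subgroup.subset_closure (by simp [genG])⟩
  v := ⟨gK V (KP.v V), Subgroup.subset_closure (by simp [genG])⟩
  s b := ⟨gK V (KP.s V b), Subgroup.subset_closure (by cases b <;> simp [genG])⟩

/-- the group `Γ = Z/3 * G` -/
abbrev Gam (V : Set (List Bool)) : Type := Coprod (Multiplicative (ZMod 3)) (GP V)

/-- designated elements of a free product -/
def Elts.lift {G : Type} [Group G] (e : Elts G) : Elts (Coprod (Multiplicative (ZMod 3)) G) where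
  a := Coprod.inl (Multiplicative.ofAdd 1)
  x := Coprod.inr e.x
  c := Coprod.inr e.c
  t := Coprod.inr e.t
  r := Coprod.inr e.r
  v := Coprod.inr e.v
  s b := Coprod.inr (e.s b)

/-- the group `G` is countable -/
def StmtGCountable : Prop := ∀ V : Set (List Bool), Countable (GP V)

/-- the action of `G` on `Y` is free and continuous -/
def StmtYAct : Prop :=
  ∀ V : Set (List Bool), FreeAct (GP V) (YY V) ∧ ∀ g : GP V, Continuous fun y : YY V => g • y

/-- `Y` is a product of countable discrete spaces -/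
def StmtYHomeo : Prop :=
  ∀ V : Set (List Bool), ∃ (Idx : Type) (_ : Countable Idx) (D : Idx → Type)
    (_ : ∀ i, Countable (D i)) (_ : ∀ i, Nonempty (D i)) (_ : ∀ i, TopologicalSpace (D i))
    (_ : ∀ i, DiscreteTopology (D i)), Nonempty (YY V ≃ₜ ∀ i, D i)

/-- the designated elements of `Γ` are good -/
def StmtGood : Prop := ∀ T : Tr, Good (eG (Val T)).lift (Val T)

end Pool.Agent.LCL89
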