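import Pool.Agent.LCL89.Grp.Defs

set_option autoImplicit false

/-!
# The group `G` is countable and acts freely and continuously on `Y`
-/

namespace Pool.Agent.LCL89

/-- free groups over countable types are countable -/
theorem countable_freeGroup (α : Type) [Countable α] : Countable (FreeGroup α) := by
  have : Function.Surjective (FreeGroup.mk : List (α × Bool) → FreeGroup α) := by
    intro x
    induction x using Quot.ind with
    | mk l => exact ⟨l, rfl⟩
  exact this.countable

/-- the closure of a countable set is countable -/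
theorem countable_closure {H : Type} [Group H] (S : Set H) (hS : S.Countable) :
    Countable (Subgroup.closure S) := by
  have hS' : Countable S := hS
  have h1 : Countable (FreeGroup S) := countable_freeGroup S
  have h2 : (FreeGroup.lift (fun s : S => (s : H))).range = Subgroup.closure S := by
    rw [FreeGroup.range_lift_eq_closure]
    simp
  rw [← h2]
  exact (MonoidHom.rangeRestrict_surjective _).countable

theorem gCountable : StmtGCountable := by
  intro V
  have h : (genG V).Countable := by
    unfold genG
    exact (Set.toFinite _).countable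
  exact countable_closure (genG V) h

/-- the form of the elements of `G` -/
def GForm {V : Set (List Bool)} (g : Equiv.Perm (Y1 V)) : Prop :=
  ∃ (a : ℤ) (κ : KP V) (n : ℤ) (h : ℤ → ℤ), ∀ y : Y1 V,
    g y = (y.1 + a, κ * y.2.1, y.2.2.1 + n,
      fun i k => y.2.2.2 i k + ((h (i - y.2.2.1) : ℤ) : ZMod (pp k)))

theorem gForm_one {V : Set (List Bool)} : GForm (1 : Equiv.Perm (Y1 V)) := by
  refine ⟨0, 1, 0, fun _ => 0, fun y => ?_⟩
  simp

theorem gForm_mul {V : Set (List Bool)} {g g' : Equiv.Perm (Y1 V)} (hg : GForm g)
    (hg' : GForm g') : GForm (g * g') := by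
  obtain ⟨a, κ, n, h, H⟩ := hg
  obtain ⟨a', κ', n', h', H'⟩ := hg'
  refine ⟨a' + a, κ * κ', n' + n, fun j => h' j + h (j - n'), fun y => ?_⟩
  rw [Equiv.Perm.mul_apply, H', H]
  refine Prod.ext ?_ (Prod.ext ?_ (Prod.ext ?_ ?_))
  · simp only; ring
  · simp only; rw [mul_assoc]
  · simp only; ring
  · funext i k
    have e : i - (y.2.2.1 + n') = i - y.2.2.1 - n' := by ring
    simp only [e]
    push_cast
    ring

theorem gForm_inv {V : Set (List Bool)} {g : Equiv.Perm (Y1 V)} (hg : GForm g) :
    GForm (g⁻¹) := by
  obtain ⟨a, κ, n, h, H⟩ := hg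
  refine ⟨-a, κ⁻¹, -n, fun j => - h (j + n), fun y => ?_⟩
  rw [Equiv.Perm.inv_eq_iff_eq, H]
  refine Prod.ext ?_ (Prod.ext ?_ (Prod.ext ?_ ?_))
  · simp only; ring
  · simp only; rw [mul_inv_cancel_left]
  · simp only; ring
  · funext i k
    have e : i - (y.2.2.1 + -n) = i - y.2.2.1 + n := by ring
    simp only [e]
    push_cast
    ring

theorem gForm_gK {V : Set (List Bool)} (κ : KP V) : GForm (gK V κ) := by
  refine ⟨0, κ, 0, fun _ => 0, fun y => ?_⟩
  simp [gK]

theorem gForm_gen {V : Set (List Bool)} {g : Equiv.Perm (Y1 V)} (hg : g ∈ genG V) :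
    GForm g := by
  simp only [genG, Set.mem_insert_iff, Set.mem_singleton_iff] at hg
  rcases hg with rfl | rfl | rfl | rfl | rfl | rfl | rfl
  · exact ⟨1, 1, 0, fun _ => 0, fun y => by simp [gx]⟩
  · exact ⟨0, 1, -1, fun _ => 0, fun y => by simp [gt, sub_eq_add_neg]⟩
  · refine ⟨0, 1, 0, fun j => if j = 0 then 1 else 0, fun y => ?_⟩
    refine Prod.ext ?_ (Prod.ext ?_ (Prod.ext ?_ ?_))
    · simp [gc]
    · simp [gc]
    · simp [gc]
    · funext i k
      by_cases hi : i = y.2.2.1
      · simp [gc, addAt, hi]
      · simp [gc, addAt, hi, sub_eq_zero]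
  · exact gForm_gK _
  · exact gForm_gK _
  · exact gForm_gK _
  · exact gForm_gK _

theorem gForm_perm {V : Set (List Bool)} (g : GP V) : GForm g.perm := by
  have h : ∀ x ∈ Subgroup.closure (genG V), GForm x := by
    intro x hx
    induction hx using Subgroup.closure_induction with
    | mem x hx => exact gForm_gen hx
    | one => exact gForm_one
    | mul x y _ _ hx hy => exact gForm_mul hx hy
    | inv x _ hx => exact gForm_inv hx
  exact h _ g.2

theorem lt_pp (k : ℕ) : k < pp k := by
  have h1 : k < 2 ^ k := Nat.lt_two_pow_self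
  have h2 : 2 ^ k < 2 ^ 2 ^ k := Nat.pow_lt_pow_right (by norm_num) h1
  unfold pp Nat.fermatNumber
  omega

theorem eq_zero_of_pp {m : ℤ} (h : ∀ k, ((m : ℤ) : ZMod (pp k)) = 0) : m = 0 := by
  have h1 := h m.natAbs
  rw [ZMod.intCast_zmod_eq_zero_iff_dvd] at h1
  exact Int.eq_zero_of_abs_lt_dvd h1 (by
    rw [Int.abs_eq_natAbs]
    exact_mod_cast lt_pp m.natAbs)

theorem yAct : StmtYAct := by
  intro V
  refine ⟨fun g y hy => ?_, fun g => ?_⟩
  · obtain ⟨a, κ, n, h, H⟩ := gForm_perm g
    have h1 : g.perm y.1 = y.1 := congrArg Prod.fst hy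
    rw [H] at h1
    have ha : a = 0 := by
      have := congrArg Prod.fst h1
      simpa using this
    have hκ : κ = 1 := by
      have := congrArg (fun z => z.2.1) h1
      simpa using this
    have hn : n = 0 := by
      have := congrArg (fun z => z.2.2.1) h1
      simpa using this
    have hh : ∀ j, h j = 0 := by
      intro j
      apply eq_zero_of_pp
      intro k
      have := congrFun (congrFun (congrArg (fun z => z.2.2.2) h1) (j + y.1.2.2.1)) k
      simpa using this
    apply Subtype.ext
    refine Equiv.ext fun z => ?_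
    have hz := H z
    rw [ha, hκ, hn] at hz
    have : (fun (i : ℤ) (k : ℕ) => z.2.2.2 i k + ((h (i - z.2.2.1) : ℤ) : ZMod (pp k)))
        = z.2.2.2 := by
      funext i k
      rw [hh]
      simp
    rw [this] at hz
    have hz' : g.perm z = z := by simpa using hz
    exact hz'
  · obtain ⟨a, κ, n, h, H⟩ := gForm_perm g
    have e : (fun y : YY V => g • y) = fun y : YY V =>
        ((y.1.1 + a, κ * y.1.2.1, y.1.2.2.1 + n,
          fun (i : ℤ) (k : ℕ) => y.1.2.2.2 i k + ((h (i - y.1.2.2.1) : ℤ) : ZMod (pp k))),
          y.2) := by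
      funext y
      exact Prod.ext (H y.1) rfl
    rw [e]
    have hδ : Continuous fun y : YY V => y.1.2.2.1 := by fun_prop
    have hω : Continuous fun y : YY V => y.1.2.2.2 := by fun_prop
    refine Continuous.prodMk (Continuous.prodMk ?_ (Continuous.prodMk ?_
      (Continuous.prodMk ?_ ?_))) continuous_snd
    · exact (continuous_of_discreteTopology (f := fun z : ℤ => z + a)).comp
        (continuous_fst.comp continuous_fst)
    · exact (continuous_of_discreteTopology (f := fun z : KP V => κ * z)).comp
        (continuous_fst.comp (continuous_snd.comp continuous_fst))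
    · exact (continuous_of_discreteTopology (f := fun z : ℤ => z + n)).comp hδ
    · refine continuous_pi fun i => continuous_pi fun k => ?_
      have h3 : Continuous fun y : YY V => (y.1.2.2.1, y.1.2.2.2 i k) :=
        hδ.prodMk ((continuous_apply k).comp ((continuous_apply i).comp hω))
      exact (continuous_of_discreteTopology
        (f := fun q : ℤ × ZMod (pp k) => q.2 + ((h (i - q.1) : ℤ) : ZMod (pp k)))).comp h3

end Pool.Agent.LCL89
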