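import Pool.Agent.LCL89.Grp.Defs

set_option autoImplicit false

/-!
# The designated elements of `Γ = Z/3 * G` are good
-/

namespace Pool.Agent.LCL89

open Monoid

variable {V : Set (List Bool)}

theorem Good38.gK_mem (κ : KP V) : gK V κ ∈ Subgroup.closure (genG V) := by
  obtain ⟨k, hk⟩ := κ
  refine Subgroup.closure_induction
    (p := fun k hk => gK V (⟨k, hk⟩ : KP V) ∈ Subgroup.closure (genG V)) ?_ ?_ ?_ ?_ hk
  · intro x hx
    have hx' := hx
    simp only [genK, Set.mem_insert_iff, Set.mem_singleton_iff] at hx'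
    rcases hx' with rfl | rfl | rfl | rfl
    · exact (eG V).r.2
    · exact (eG V).v.2
    · exact ((eG V).s false).2
    · exact ((eG V).s true).2
  · have h : gK V (1 : KP V) ∈ Subgroup.closure (genG V) := by
      rw [map_one]; exact one_mem _
    exact h
  · intro x y hx hy h1 h2
    have h : ∀ a b : KP V, gK V a ∈ Subgroup.closure (genG V) →
        gK V b ∈ Subgroup.closure (genG V) → gK V (a * b) ∈ Subgroup.closure (genG V) := by
      intro a b h1 h2
      rw [map_mul]; exact mul_mem h1 h2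
    exact h _ _ h1 h2
  · intro x hx h1
    have h : ∀ a : KP V, gK V a ∈ Subgroup.closure (genG V) →
        gK V a⁻¹ ∈ Subgroup.closure (genG V) := by
      intro a h1
      rw [map_inv]; exact inv_mem h1
    exact h _ h1

/-- the embedding of `K` in `G` -/
noncomputable def Good38.emb (V : Set (List Bool)) : KP V →* GP V where
  toFun κ := ⟨gK V κ, Good38.gK_mem κ⟩
  map_one' := Subtype.ext (map_one (gK V))
  map_mul' κ μ := Subtype.ext (map_mul (gK V) κ μ)

theorem Good38.emb_injective : Function.Injective (Good38.emb V) := by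
  intro κ μ h
  have h1 : gK V κ = gK V μ := congrArg GP.perm h
  have h2 : gK V κ ((0, 1, 0, 0) : Y1 V) = gK V μ ((0, 1, 0, 0) : Y1 V) := by rw [h1]
  have h3 : κ * 1 = μ * 1 := congrArg (fun z : Y1 V => z.2.1) h2
  simpa using h3

theorem Good38.comm {g h : Equiv.Perm (Y1 V)} (hg : g ∈ Subgroup.closure (genG V))
    (hh : h ∈ Subgroup.closure (genG V)) (H : ∀ y, g (h y) = h (g y)) :
    Commute (⟨g, hg⟩ : GP V) (⟨h, hh⟩ : GP V) := by
  refine Subtype.ext ?_
  exact Equiv.ext H

theorem good : StmtValWf → StmtK2 → StmtGood := by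
  intro hwf hk2 T
  have hcomm : ∀ {g h : GP (Val T)}, Commute g h →
      Commute (Coprod.inr g : Gam (Val T)) (Coprod.inr h : Gam (Val T)) :=
    fun {g h} H => H.map (Coprod.inr : GP (Val T) →* Gam (Val T))
  refine ⟨?_, ?_, ?_, ?_, ?_, ?_, ?_, ?_, hwf T⟩
  · intro h
    have h1 : (Coprod.inl (Multiplicative.ofAdd (1 : ZMod 3)) : Gam (Val T)) =
        Coprod.inl (1 : Multiplicative (ZMod 3)) := h.trans (MonoidHom.map_one _).symm
    have h2 := Coprod.inl_injective h1
    have h3 : (1 : ZMod 3) = 0 := Multiplicative.ofAdd.injective h2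
    exact absurd h3 (by decide)
  · have h1 : (Coprod.inl (Multiplicative.ofAdd (1 : ZMod 3)) : Gam (Val T)) ^ 3 = 1 := by
      rw [← map_pow]
      have : (Multiplicative.ofAdd (1 : ZMod 3)) ^ 3 = 1 := by
        rw [← ofAdd_nsmul]
        have : (3 : ℕ) • (1 : ZMod 3) = 0 := by decide
        rw [this, ofAdd_zero]
      rw [this, map_one]
    exact h1
  · exact hcomm (Good38.comm _ _ fun _ => rfl)
  · exact hcomm (Good38.comm _ _ fun _ => rfl)
  · exact hcomm (Good38.comm _ _ fun _ => rfl)
  · exact hcomm (Good38.comm _ _ fun _ => rfl)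
  · intro b
    exact hcomm (Good38.comm _ _ fun _ => rfl)
  · intro σ hσ
    obtain ⟨Q, i1, i2, j, ρ, r', v', hj, hr, hv, hρr, hρv⟩ := hk2 (Val T) σ hσ
    refine ⟨Q, i1, i2, ((Coprod.inr : GP (Val T) →* Gam (Val T)).comp (Good38.emb (Val T))).comp j,
      ρ, r', v', ?_, ?_, ?_, hρr, hρv⟩
    · exact (Coprod.inr_injective.comp Good38.emb_injective).comp hj
    · rw [MonoidHom.comp_apply, hr]
      rfl
    · rw [MonoidHom.comp_apply, hv, vconj, map_mul, map_mul, map_inv]
      have h1 : ((Coprod.inr : GP (Val T) →* Gam (Val T)).comp (Good38.emb (Val T)))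
          (wrd (KP.s (Val T)) σ) = wrd (eG (Val T)).lift.s σ := by
        unfold wrd
        rw [map_list_prod, List.map_map]
        rfl
      rw [h1]
      rfl

end Pool.Agent.LCL89
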