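import Pool.Agent.LCL89.Grp.Defs

set_option autoImplicit false

/-!
# The group `K`: countability, the relations K1 and K2, and well-foundedness of valid codes
-/

namespace Pool.Agent.LCL89

/-! ### valid codes -/

theorem K67.prefix_block : ∀ (j j' : ℕ) (ρ ρ' : List Bool),
    (List.replicate j false ++ true :: ρ) <+: (List.replicate j' false ++ true :: ρ') →
      j = j' ∧ ρ <+: ρ'
  | 0, 0, ρ, ρ', h => by
      simp only [List.replicate_zero, List.nil_append] at h
      exact ⟨rfl, (List.cons_prefix_cons.1 h).2⟩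
  | 0, j' + 1, ρ, ρ', h => by
      simp only [List.replicate_zero, List.nil_append, List.replicate_succ, List.cons_append] at h
      exact absurd (List.cons_prefix_cons.1 h).1 (by decide)
  | j + 1, 0, ρ, ρ', h => by
      simp only [List.replicate_zero, List.nil_append, List.replicate_succ, List.cons_append] at h
      exact absurd (List.cons_prefix_cons.1 h).1 (by decide)
  | j + 1, j' + 1, ρ, ρ', h => by
      simp only [List.replicate_succ, List.cons_append] at h
      obtain ⟨h1, h2⟩ := K67.prefix_block j j' ρ ρ' (List.cons_prefix_cons.1 h).2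
      exact ⟨by rw [h1], h2⟩

/-- no infinite chains of valid codes -/
theorem valWf : StmtValWf := by
  intro T
  induction T with
  | leaf =>
    intro f hf hc
    have h0 : f 0 = [false] := hf 0
    have h1 : f 1 = [false] := hf 1
    exact (hc 0).2 (h0.trans h1.symm)
  | node g ih =>
    intro f hf hc
    have hne : ∀ n, f (n + 1) ≠ [] := by
      intro n h
      have h1 := (hc n).1
      rw [h] at h1
      exact (hc n).2 ((List.prefix_nil.1 h1).trans h.symm)
    have hex : ∀ n, ∃ j : ℕ, ∃ ρ ∈ Val (g j), f (n + 1) = List.replicate j false ++ true :: ρ := by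
      intro n
      have := hf (n + 1)
      simp only [Val] at this
      rcases this with h | h
      · exact absurd h (hne n)
      · exact h
    choose J R hR hfe using hex
    have hstep : ∀ n, J n = J (n + 1) ∧ R n <+: R (n + 1) := by
      intro n
      have h1 := (hc (n + 1)).1
      rw [hfe n, hfe (n + 1)] at h1
      exact K67.prefix_block _ _ _ _ h1
    have hJ : ∀ n, J n = J 0 := by
      intro n
      induction n with
      | zero => rfl
      | succ n ihn => rw [← (hstep n).1, ihn]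
    refine ih (J 0) R (fun n => ?_) (fun n => ⟨(hstep n).2, fun h => ?_⟩)
    · have := hR n
      rwa [hJ n] at this
    · apply (hc (n + 1)).2
      rw [hfe n, hfe (n + 1), h, (hstep n).1]

/-! ### countability -/

theorem K67.countable_freeGroup (α : Type) [Countable α] : Countable (FreeGroup α) := by
  have : Function.Surjective (FreeGroup.mk : List (α × Bool) → FreeGroup α) := by
    intro x
    induction x using Quot.ind with
    | mk l => exact ⟨l, rfl⟩
  exact this.countable

theorem K67.countable_closure {H : Type} [Group H] (S : Set H) (hS : S.Countable) :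
    Countable (Subgroup.closure S) := by
  have hS' : Countable S := hS
  have h1 : Countable (FreeGroup S) := K67.countable_freeGroup S
  have h2 : (FreeGroup.lift (fun s : S => (s : H))).range = Subgroup.closure S := by
    rw [FreeGroup.range_lift_eq_closure, Subtype.range_coe]
  rw [← h2]
  exact (MonoidHom.rangeRestrict_surjective _).countable

/-- `K` is countable -/
theorem kCountable : StmtKCountable := by
  intro V
  exact K67.countable_closure (genK V) (Set.Finite.countable (by simp [genK]))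

/-! ### positions of codes -/

/-- the position of a code as a natural number -/
def K67.nn : List Bool → ℕ
  | [] => 1
  | b :: σ => 2 * K67.nn σ + (if b then 1 else 0)

theorem K67.nn_pos : ∀ σ, 0 < K67.nn σ
  | [] => Nat.one_pos
  | b :: σ => by
    have := K67.nn_pos σ
    unfold K67.nn
    omega

theorem K67.qq_eq : ∀ σ, qq σ = (K67.nn σ : ℚ)
  | [] => by simp [qq, K67.nn]
  | b :: σ => by
    rw [qq, K67.nn, K67.qq_eq σ]
    cases b <;> simp

theorem K67.nn_inj : ∀ σ τ : List Bool, K67.nn σ = K67.nn τ → σ = τ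
  | [], [], _ => rfl
  | [], b :: τ, h => by
    have := K67.nn_pos τ
    unfold K67.nn at h
    split_ifs at h <;> omega
  | b :: σ, [], h => by
    have := K67.nn_pos σ
    unfold K67.nn at h
    split_ifs at h <;> omega
  | b :: σ, c :: τ, h => by
    have h1 : b = c ∧ K67.nn σ = K67.nn τ := by
      rw [K67.nn, K67.nn] at h
      cases b <;> cases c <;> simp at h ⊢ <;> omega
    rw [h1.1, K67.nn_inj σ τ h1.2]

theorem K67.qq_inj {σ τ : List Bool} (h : qq σ = qq τ) : σ = τ := by
  rw [K67.qq_eq, K67.qq_eq] at h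
  exact K67.nn_inj σ τ (by exact_mod_cast h)

/-! ### the permutation `v_σ` -/

variable {V : Set (List Bool)}

/-- the affine map of a word -/
theorem K67.wrd_perm (σ : List Bool) : ∃ m : ℚ, m ≠ 0 ∧ ∀ q : Pt,
    ((wrd (KP.s V) σ).perm q) = (m * (q.1 - 1) + qq σ, q.2) := by
  induction σ with
  | nil =>
    refine ⟨1, one_ne_zero, fun q => ?_⟩
    have : (wrd (KP.s V) []).perm q = q := rfl
    rw [this, qq]
    refine Prod.ext ?_ rfl
    simp
  | cons b σ ih =>
    obtain ⟨m, hm, h⟩ := ih
    refine ⟨2 * m, mul_ne_zero two_ne_zero hm, fun q => ?_⟩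
    have : (wrd (KP.s V) (b :: σ)).perm q = sPerm b ((wrd (KP.s V) σ).perm q) := by
      unfold wrd
      rw [List.map_cons, List.prod_cons]
      rfl
    rw [this, h q, qq]
    refine Prod.ext ?_ rfl
    simp only [sPerm, Equiv.coe_fn_mk]
    ring

theorem K67.perm_inv_apply (k : KP V) (q : Pt) : k.perm (k⁻¹.perm q) = q := by
  have : k.perm (k⁻¹.perm q) = (k * k⁻¹).perm q := rfl
  rw [this, mul_inv_cancel]
  rfl

theorem K67.vsig_perm (σ : List Bool) (q : Pt) :
    (wrd (KP.s V) σ * KP.v V * (wrd (KP.s V) σ)⁻¹).perm q = if q.1 = qq σ then (q.1, -q.2) else q := by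
  obtain ⟨m, hm, h⟩ := K67.wrd_perm (V := V) σ
  set w := wrd (KP.s V) σ with hw
  have e : (w * KP.v V * w⁻¹).perm q = w.perm (vPerm (w⁻¹.perm q)) := rfl
  have hq := K67.perm_inv_apply w q
  rw [h] at hq
  have h1 : m * ((w⁻¹.perm q).1 - 1) + qq σ = q.1 := (Prod.ext_iff.1 hq).1
  have h2 : (w⁻¹.perm q).2 = q.2 := (Prod.ext_iff.1 hq).2
  rw [e]
  by_cases hc : q.1 = qq σ
  · have h3 : (w⁻¹.perm q).1 = 1 := by
      rw [hc] at h1
      have : m * ((w⁻¹.perm q).1 - 1) = 0 := by linarith
      rcases mul_eq_zero.1 this with h0 | h0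
      · exact absurd h0 hm
      · linarith
    rw [if_pos hc]
    have h4 : vPerm (w⁻¹.perm q) = (1, -q.2) := by
      simp only [vPerm, Equiv.coe_fn_mk, h3, if_true, h2]
    rw [h4, h]
    refine Prod.ext ?_ rfl
    simp [hc]
  · have h3 : (w⁻¹.perm q).1 ≠ 1 := by
      intro h0
      apply hc
      rw [h0] at h1
      linarith
    rw [if_neg hc]
    have h4 : vPerm (w⁻¹.perm q) = w⁻¹.perm q := by
      simp only [vPerm, Equiv.coe_fn_mk, h3, if_false]
    rw [h4]
    exact K67.perm_inv_apply w q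

theorem K67.r_perm (q : Pt) [Decidable (∃ σ, σ ∉ V ∧ q.1 = qq σ)] :
    (KP.r V).perm q = if ∃ σ, σ ∉ V ∧ q.1 = qq σ then (q.1, 1 - q.2) else q := by
  have : (KP.r V).perm q = rPerm V q := rfl
  rw [this]
  simp only [rPerm, Equiv.coe_fn_mk]
  congr

theorem K67.perm_ext {k l : KP V} (h : ∀ q, k.perm q = l.perm q) : k = l :=
  Subtype.ext (Equiv.ext h)

theorem K67.perm_mul (k l : KP V) (q : Pt) : (k * l).perm q = k.perm (l.perm q) := rfl

/-- K1 -/
theorem k1 : StmtK1 := by
  classical
  intro V σ hσ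
  refine K67.perm_ext fun q => ?_
  rw [K67.perm_mul (KP.r V), K67.perm_mul _ (KP.r V), K67.vsig_perm, K67.r_perm, K67.r_perm]
  by_cases hc : q.1 = qq σ
  · have hn : ¬ ∃ τ, τ ∉ V ∧ q.1 = qq τ := by
      rintro ⟨τ, hτ, h⟩
      exact hτ (K67.qq_inj (hc.symm.trans h) ▸ hσ)
    rw [if_pos hc]
    simp only [hn, if_false]
    rw [K67.vsig_perm, if_pos hc]
  · rw [if_neg hc]
    split_ifs with h
    · rw [K67.vsig_perm, if_neg hc]
    · rw [K67.vsig_perm, if_neg hc]

/-! ### K2 -/

open Classical in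
/-- the finite group of permutations acting by `α` at the position of `σ`, by `β` at the other
invalid positions -/
noncomputable def K67.Phi (V : Set (List Bool)) (σ : List Bool) :
    (Equiv.Perm (ZMod 4) × Equiv.Perm (ZMod 4)) →* Equiv.Perm Pt where
  toFun g :=
    { toFun := fun q => (q.1, if q.1 = qq σ then g.1 q.2 else
        if ∃ τ, τ ∉ V ∧ q.1 = qq τ then g.2 q.2 else q.2)
      invFun := fun q => (q.1, if q.1 = qq σ then g.1⁻¹ q.2 else
        if ∃ τ, τ ∉ V ∧ q.1 = qq τ then g.2⁻¹ q.2 else q.2)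
      left_inv := fun q => by
        refine Prod.ext rfl ?_
        by_cases h1 : q.1 = qq σ
        · simp [h1]
        · by_cases h2 : ∃ τ, τ ∉ V ∧ q.1 = qq τ <;> simp [h1, h2]
      right_inv := fun q => by
        refine Prod.ext rfl ?_
        by_cases h1 : q.1 = qq σ
        · simp [h1]
        · by_cases h2 : ∃ τ, τ ∉ V ∧ q.1 = qq τ <;> simp [h1, h2] }
  map_one' := by
    ext1 q
    refine Prod.ext rfl ?_
    by_cases h1 : q.1 = qq σ
    · simp [h1]
    · by_cases h2 : ∃ τ, τ ∉ V ∧ q.1 = qq τ <;> simp [h1, h2]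
  map_mul' g h := by
    ext1 q
    refine Prod.ext rfl ?_
    by_cases h1 : q.1 = qq σ
    · simp [h1]
    · by_cases h2 : ∃ τ, τ ∉ V ∧ q.1 = qq τ <;> simp [h1, h2]

/-- the finite subgroup of `K` -/
noncomputable def K67.Q (V : Set (List Bool)) (σ : List Bool) : Subgroup (KP V) :=
  (K67.Phi V σ).range.comap (Subgroup.subtype (Subgroup.closure (genK V)))

theorem K67.mem_Q {σ : List Bool} {k : KP V} :
    k ∈ K67.Q V σ ↔ ∃ g, K67.Phi V σ g = k.perm := Iff.rfl

instance K67.finite_Q (V : Set (List Bool)) (σ : List Bool) : Finite (K67.Q V σ) := by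
  have h0 : Finite (ZMod 4) := inferInstanceAs (Finite (Fin 4))
  have h1 : Finite (Equiv.Perm (ZMod 4) × Equiv.Perm (ZMod 4)) := inferInstance
  have h2 : Finite (K67.Phi V σ).range :=
    Finite.of_surjective _ (MonoidHom.rangeRestrict_surjective (K67.Phi V σ))
  refine Finite.of_injective
    (fun k : K67.Q V σ => (⟨k.1.perm, k.2⟩ : (K67.Phi V σ).range)) ?_
  intro k l h
  apply Subtype.ext
  apply Subtype.ext
  exact congrArg (fun p : (K67.Phi V σ).range => p.1) h

theorem K67.fst_Q {σ : List Bool} (k : K67.Q V σ) (q : Pt) : (k.1.perm q).1 = q.1 := by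
  obtain ⟨g, hg⟩ := K67.mem_Q.1 k.2
  rw [← hg]
  rfl

/-- the action on the fibre at the position of `σ` -/
noncomputable def K67.fib (V : Set (List Bool)) (σ : List Bool) :
    K67.Q V σ →* Equiv.Perm (ZMod 4) where
  toFun k :=
    { toFun := fun i => (k.1.perm (qq σ, i)).2
      invFun := fun i => ((k⁻¹).1.perm (qq σ, i)).2
      left_inv := fun i => by
        have h : (k.1.perm (qq σ, i)) = (qq σ, (k.1.perm (qq σ, i)).2) :=
          Prod.ext (K67.fst_Q k _) rfl
        have h2 : (k⁻¹).1.perm (k.1.perm (qq σ, i)) = (qq σ, i) := by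
          have e : (k⁻¹).1.perm (k.1.perm (qq σ, i)) = (k⁻¹ * k).1.perm (qq σ, i) := rfl
          rw [e, inv_mul_cancel]
          rfl
        rw [h] at h2
        simp only [h2]
      right_inv := fun i => by
        have h : ((k⁻¹).1.perm (qq σ, i)) = (qq σ, ((k⁻¹).1.perm (qq σ, i)).2) :=
          Prod.ext (K67.fst_Q k⁻¹ _) rfl
        have h2 : k.1.perm ((k⁻¹).1.perm (qq σ, i)) = (qq σ, i) := by
          have e : k.1.perm ((k⁻¹).1.perm (qq σ, i)) = (k * k⁻¹).1.perm (qq σ, i) := rfl
          rw [e, mul_inv_cancel]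
          rfl
        rw [h] at h2
        simp only [h2] }
  map_one' := by ext1 i; rfl
  map_mul' k l := by
    ext1 i
    have h : (l.1.perm (qq σ, i)) = (qq σ, (l.1.perm (qq σ, i)).2) :=
      Prod.ext (K67.fst_Q l _) rfl
    have e : ((k * l).1.perm (qq σ, i)) = k.1.perm (l.1.perm (qq σ, i)) := rfl
    simp only [Equiv.Perm.coe_mul, Function.comp_apply, Equiv.coe_fn_mk]
    rw [e, h]

/-- the permutation `i ↦ 1 - i` -/
def K67.refl1 : Equiv.Perm (ZMod 4) where
  toFun i := 1 - i
  invFun i := 1 - i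
  left_inv i := by ring
  right_inv i := by ring

/-- the permutation `i ↦ - i` -/
def K67.refl0 : Equiv.Perm (ZMod 4) where
  toFun i := -i
  invFun i := -i
  left_inv i := by ring
  right_inv i := by ring

theorem K67.r_mem {σ : List Bool} (hσ : σ ∉ V) : KP.r V ∈ K67.Q V σ := by
  classical
  refine K67.mem_Q.2 ⟨(K67.refl1, K67.refl1), ?_⟩
  ext1 q
  rw [K67.r_perm]
  by_cases h1 : q.1 = qq σ
  · have h2 : ∃ τ, τ ∉ V ∧ q.1 = qq τ := ⟨σ, hσ, h1⟩
    rw [if_pos h2]
    refine Prod.ext rfl ?_
    simp [K67.Phi, h1, K67.refl1]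
  · by_cases h2 : ∃ τ, τ ∉ V ∧ q.1 = qq τ
    · rw [if_pos h2]
      refine Prod.ext rfl ?_
      simp only [K67.Phi, MonoidHom.coe_mk, OneHom.coe_mk, Equiv.coe_fn_mk, if_neg h1, if_pos h2,
        K67.refl1]
    · rw [if_neg h2]
      refine Prod.ext rfl ?_
      simp only [K67.Phi, MonoidHom.coe_mk, OneHom.coe_mk, Equiv.coe_fn_mk, if_neg h1, if_neg h2]

theorem K67.v_mem (σ : List Bool) :
    wrd (KP.s V) σ * KP.v V * (wrd (KP.s V) σ)⁻¹ ∈ K67.Q V σ := by
  classical
  refine K67.mem_Q.2 ⟨(K67.refl0, 1), ?_⟩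
  ext1 q
  rw [K67.vsig_perm]
  by_cases h1 : q.1 = qq σ
  · rw [if_pos h1]
    refine Prod.ext rfl ?_
    simp [K67.Phi, h1, K67.refl0]
  · rw [if_neg h1]
    refine Prod.ext rfl ?_
    simp [K67.Phi, h1]

/-- K2 -/
theorem k2 : StmtK2 := by
  classical
  intro V σ hσ
  refine ⟨K67.Q V σ, inferInstance, inferInstance, (K67.Q V σ).subtype, K67.fib V σ,
    ⟨KP.r V, K67.r_mem hσ⟩, ⟨_, K67.v_mem σ⟩, Subtype.val_injective, rfl, rfl, fun i => ?_,
    fun i => ?_⟩
  · have h : ((KP.r V).perm (qq σ, i)).2 = 1 - i := by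
      rw [K67.r_perm, if_pos ⟨σ, hσ, rfl⟩]
    exact h
  · have h : ((wrd (KP.s V) σ * KP.v V * (wrd (KP.s V) σ)⁻¹).perm (qq σ, i)).2 = -i := by
      rw [K67.vsig_perm, if_pos rfl]
    exact h

end Pool.Agent.LCL89
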