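import Pool.Agent.LCL89.Grp.Defs
import Pool.Agent.LCL89.Grp.K

set_option autoImplicit false

namespace Pool.Agent.LCL89

/-- products of countable discrete nonempty spaces -/
def IsProdSp (Y : Type) [TopologicalSpace Y] : Prop :=
  ∃ (Idx : Type) (_ : Countable Idx) (D : Idx → Type)
    (_ : ∀ i, Countable (D i)) (_ : ∀ i, Nonempty (D i)) (_ : ∀ i, TopologicalSpace (D i))
    (_ : ∀ i, DiscreteTopology (D i)), Nonempty (Y ≃ₜ ∀ i, D i)

theorem isProdSp_pi (Idx : Type) [h1 : Countable Idx] (D : Idx → Type)
    [h2 : ∀ i, Countable (D i)] [h3 : ∀ i, Nonempty (D i)] [h4 : ∀ i, TopologicalSpace (D i)]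
    [h5 : ∀ i, DiscreteTopology (D i)] : IsProdSp (∀ i, D i) :=
  ⟨Idx, h1, D, h2, h3, h4, h5, ⟨Homeomorph.refl _⟩⟩

theorem IsProdSp.congr {Y Z : Type} [TopologicalSpace Y] [TopologicalSpace Z] (h : IsProdSp Z)
    (e : Y ≃ₜ Z) : IsProdSp Y := by
  obtain ⟨Idx, h1, D, h2, h3, h4, h5, ⟨f⟩⟩ := h
  exact ⟨Idx, h1, D, h2, h3, h4, h5, ⟨e.trans f⟩⟩

theorem isProdSp_discrete (D : Type) [h2 : Countable D] [h3 : Nonempty D] [h4 : TopologicalSpace D]
    [h5 : DiscreteTopology D] : IsProdSp D :=
  ⟨Unit, inferInstance, fun _ => D, fun _ => h2, fun _ => h3, fun _ => h4, fun _ => h5,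
    ⟨(Homeomorph.funUnique Unit D).symm⟩⟩

theorem IsProdSp.prod {Y Z : Type} [TopologicalSpace Y] [TopologicalSpace Z] (h : IsProdSp Y)
    (h' : IsProdSp Z) : IsProdSp (Y × Z) := by
  obtain ⟨Idx, h1, D, h2, h3, h4, h5, ⟨f⟩⟩ := h
  obtain ⟨Idx', h1', D', h2', h3', h4', h5', ⟨f'⟩⟩ := h'
  let T : ∀ i, TopologicalSpace (Sum.elim D D' i) := fun i => match i with
    | Sum.inl i => h4 i
    | Sum.inr i => h4' i
  refine ⟨Idx ⊕ Idx', inferInstance, Sum.elim D D', ?_, ?_, T, ?_, ?_⟩
  · rintro (i | i)
    · exact h2 i
    · exact h2' i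
  · rintro (i | i)
    · exact h3 i
    · exact h3' i
  · rintro (i | i)
    · exact h5 i
    · exact h5' i
  · refine ⟨?_⟩
    letI := T
    exact
      { toFun := fun y i => match i with
          | Sum.inl i => f y.1 i
          | Sum.inr i => f' y.2 i
        invFun := fun g => (f.symm fun i => g (Sum.inl i), f'.symm fun i => g (Sum.inr i))
        left_inv := fun y => by simp
        right_inv := fun g => by
          funext i
          cases i with
          | inl i => exact congrFun (f.apply_symm_apply _) i
          | inr i => exact congrFun (f'.apply_symm_apply _) i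
        continuous_toFun := by
          refine continuous_pi fun i => ?_
          cases i with
          | inl i => exact (continuous_apply i).comp (f.continuous.comp continuous_fst)
          | inr i => exact (continuous_apply i).comp (f'.continuous.comp continuous_snd)
        continuous_invFun := by
          refine Continuous.prodMk (f.symm.continuous.comp ?_) (f'.symm.continuous.comp ?_)
          · exact continuous_pi fun i => continuous_apply (Sum.inl i)
          · exact continuous_pi fun i => continuous_apply (Sum.inr i) }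

theorem isProdSp_Om : IsProdSp Om := by
  have h : IsProdSp (∀ p : ℤ × ℕ, ZMod (pp p.2)) := by
    haveI : ∀ p : ℤ × ℕ, Countable (ZMod (pp p.2)) := fun p => Finite.to_countable
    exact isProdSp_pi _ _
  refine h.congr ?_
  exact
    { toFun := fun ω p => ω p.1 p.2
      invFun := fun g i k => g (i, k)
      left_inv := fun _ => rfl
      right_inv := fun _ => rfl
      continuous_toFun := continuous_pi fun p => (continuous_apply p.2).comp (continuous_apply p.1)
      continuous_invFun := continuous_pi fun i => continuous_pi fun k => continuous_apply (i, k) }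

theorem yHomeo : StmtYHomeo := by
  intro V
  haveI := kCountable V
  haveI : Nonempty (KP V) := ⟨1⟩
  have h1 : IsProdSp (Y1 V) := (isProdSp_discrete ℤ).prod
    ((isProdSp_discrete (KP V)).prod ((isProdSp_discrete ℤ).prod isProdSp_Om))
  exact h1.prod (isProdSp_pi _ _)

end Pool.Agent.LCL89
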